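import Mathlib
import Pool.Agent.W931.KH.Main

set_option autoImplicit false

/-!
# `KH(ℵ_n, ℵ₀)` and GCH do not imply `KH(ℵ_n, ℵ₁)`
-/

namespace Pool.Agent.Results.MP_3c4454_lc.Separation

open Cardinal Pool.Agent.Helper669.Forcing Pool.Agent.Helper669.K Pool.Agent.Helper669.U
  Pool.Agent.Helper669.V Pool.Agent.W931.KH

/-- Assume GCH, let `κ` be an inaccessible cardinal, and suppose that there is a Kurepa family
`u` on `ω₁` (more than `ℵ₁` subsets of `ω₁` with countably many traces on each initial segment);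
all this is true in `L` if `κ` is inaccessible. Let `n ≥ 2`. Then there is a forcing notion `P`
all of whose conditions force: all regular cardinals of the ground model up to `ℵ_n`, and those
from `κ` on, stay regular, and every cardinal below `κ` has cardinality at most `ℵ_n` (so
`κ = ℵ_{n+1}` in the extension); GCH; `KH(ℵ_n, ℵ_i)` for all `i < n` with `i ≠ 1`, in particular
`KH(ℵ_n, ℵ₀)`; and the negation of `KH(ℵ_n, ℵ₁)`. -/
theorem result (hGCH : ∀ ν : Cardinal.{0}, ℵ₀ ≤ ν → 2 ^ ν = Order.succ ν)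
    {U : Type} (u : U → Set (ℵ₁ : Cardinal.{0}).ord.ToType) (hu : Function.Injective u)
    (hU : ℵ₁ < #U) (hc : ∀ j, (Set.range fun s => u s ∩ Set.Iio j).Countable)
    (κ : Cardinal.{0}) (hκ : κ.IsInaccessible) (n : ℕ) (hn : 2 ≤ n) :
    ∃ (P : Type) (_ : Preorder P), Nonempty P ∧ ∀ p : P,
      (∀ ν : Cardinal.{0}, ν.IsRegular → (ν ≤ ℵ_ n ∨ κ ≤ ν) → p ∈ StaysRegular P ν) ∧
      p ∈ CollapsedTo P (ℵ_ n) κ ∧
      p ∈ ForcesGCH P ∧
      (∀ i : ℕ, i < n → i ≠ 1 →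
        p ∈ KurepaHyp P κ.ord.ToType (ℵ_ n : Cardinal.{0}).ord.ToType (ℵ_ i)) ∧
      p ∈ fnot (KurepaHyp P κ.ord.ToType (ℵ_ n : Cardinal.{0}).ord.ToType ℵ₁) := by
  have hreg : (ℵ_ n : Cardinal.{0}).IsRegular := by
    obtain ⟨m, rfl⟩ : ∃ m, n = m + 1 := ⟨n - 1, by omega⟩
    have h : (ℵ_ ((m + 1 : ℕ) : Ordinal.{0}) : Cardinal.{0}) = Order.succ (ℵ_ (m : Ordinal.{0})) := by
      rw [Cardinal.succ_aleph]
      norm_cast
    rw [h]
    exact Cardinal.isRegular_succ (Cardinal.aleph0_le_aleph _)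
  have hlk : ∀ m : ℕ, (ℵ_ (m : Ordinal.{0}) : Cardinal.{0}) < κ := by
    intro m
    induction m with
    | zero =>
      rw [Nat.cast_zero, Cardinal.aleph_zero]
      exact hκ.aleph0_lt
    | succ m ih =>
      have h : (ℵ_ ((m + 1 : ℕ) : Ordinal.{0}) : Cardinal.{0}) =
          Order.succ (ℵ_ (m : Ordinal.{0})) := by
        rw [Cardinal.succ_aleph]
        norm_cast
      rw [h, ← hGCH _ (Cardinal.aleph0_le_aleph _)]
      exact hκ.isStrongPrelimit ih
  have hlt : ∀ i j : ℕ, i < j → (ℵ_ (i : Ordinal.{0}) : Cardinal.{0}) < ℵ_ (j : Ordinal.{0}) :=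
    fun i j h => Cardinal.aleph_lt_aleph.2 (by exact_mod_cast h)
  have h1 : (ℵ₁ : Cardinal.{0}) = ℵ_ ((1 : ℕ) : Ordinal.{0}) := by norm_num
  have hI : #{i : Fin n // (i : ℕ) ≠ 1} < κ := (Cardinal.mk_lt_aleph0).trans hκ.aleph0_lt
  have hU2 : #U ≤ ℵ_ ((2 : ℕ) : Ordinal.{0}) := by
    have h2 := Cardinal.mk_le_of_injective hu
    rw [Cardinal.mk_set, mk_ord_toType, hGCH _ (aleph0_le_aleph 1)] at h2
    refine h2.trans (Order.succ_le_of_lt ?_)
    rw [h1]
    exact hlt 1 2 one_lt_two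
  refine ⟨Cd (mkPar (ℵ_ (n : Ordinal.{0})) κ
    (fun i : {i : Fin n // (i : ℕ) ≠ 1} => ℵ_ ((i.1 : ℕ) : Ordinal.{0})) hreg hκ.isRegular
    (fun ν h => hκ.isStrongPrelimit h) (hlk n) (fun i => Cardinal.aleph0_le_aleph _)
    (fun i => hlt _ _ i.1.2) hI), inferInstance, ?_, fun p => ⟨?_, ?_, ?_, ?_, ?_⟩⟩
  · have hne : Nonempty (ℵ_ (n : Ordinal.{0}) : Cardinal.{0}).ord.ToType := by
      rw [← Cardinal.mk_ne_zero_iff, mk_ord_toType]
      exact hreg.pos.ne'
    obtain ⟨b⟩ := hne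
    refine ⟨⟨b, fun _ => {∅}, ∅, fun _ _ => ∅, fun γ _ => γ, ?_, ?_, ?_, ?_, ?_, ?_, ?_, ?_⟩⟩
    · intro i t ht
      rw [Set.mem_singleton_iff.1 ht]
      exact Set.empty_subset _
    · intro i x hx
      rw [Set.image_singleton, Cardinal.mk_singleton]
      exact Cardinal.one_le_aleph0.trans (Cardinal.aleph0_le_aleph _)
    · intro i
      rfl
    · rw [Cardinal.mk_eq_zero]
      exact hreg.pos
    · intro i γ
      rfl
    · intro i γ _
      rfl
    · intro γ ξ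
      exact le_rfl
    · intro γ ξ _
      rfl
  · exact (ext_cardinals p).1
  · exact (ext_cardinals p).2
  · exact ext_GCH hGCH p
  · intro i hi hi1
    exact gen_KH (⟨⟨i, hi⟩, hi1⟩ : {i : Fin n // (i : ℕ) ≠ 1}) p
  · refine not_KH u hu hU hc ?_ ?_ p
    · show ℵ₁ < ℵ_ (n : Ordinal.{0})
      rw [h1]
      exact hlt 1 n (by omega)
    · rintro ⟨⟨i, hi⟩, hi1⟩
      show ℵ_ (i : Ordinal.{0}) = ℵ₀ ∨ #U ≤ ℵ_ (i : Ordinal.{0})
      have hi1' : i ≠ 1 := hi1
      rcases Nat.eq_zero_or_pos i with rfl | h0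
      · left
        rw [Nat.cast_zero, Cardinal.aleph_zero]
      · right
        refine hU2.trans (Cardinal.aleph_le_aleph.2 ?_)
        have h3 : 2 ≤ i := by omega
        exact_mod_cast h3

end Pool.Agent.Results.MP_3c4454_lc.Separation
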